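import Pool.Agent.P.MP_08fd93_co.FN.D1
import Pool.Agent.P.MP_08fd93_co.FK.K10

/-! Short tails: the certificate when the neck sees both ends of the left top edge. -/

set_option autoImplicit false

namespace Pool.Agent.P.MP_08fd93_co.FG

open OV PkPrtP FB FE FZ FK FP2 TT

variable {J : Type} {G : TD J} {φ : Vx J → Vx J} {v z la lb lc ld e g l x w : Vx J} {E : EJ J}
  {Y : TX J}

/-- The orbits of the edges of the row zero under `l`. -/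
def Ul (G : TD J) (φ : Vx J → Vx J) (l : Vx J) : Set J :=
  {i | ∃ x ∈ G.L 0, x.1 = i ∧ φ x = l ∧ ¬ Chd G x}

variable (h : TQ G v z la lb lc ld)
include h

theorem tp_an (t : FP.TPL G v z la) : G.an la ∉ G.V := fun c => h.ha.1.2.2 (by
  rw [h.ha.2, ← h.mz]
  exact h.st.kq _ c z h.zV la (h.st.tf.aa 1 la h.ord.1 (h.st.pr _)).1 t.2.1)

theorem tp_lb (t : FP.TPL G v z la) : lb = G.nx la := by
  obtain ⟨a1, b1, -⟩ := h.ord
  obtain ⟨n1, n2, -⟩ := h.rows.nx_mem a1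
  obtain ⟨m1, m2, -⟩ := h.rows.nx_mem n1
  have k := (h.an_iff m1).1 t.2.2.2
  have : ¬ (G.ρ lb < G.ρ (G.nx la) ∧ G.ρ (G.nx la) ≤ G.ρ lc) := fun c =>
    h.vz.ne (((h.an_iff n1).2 c).symm.trans t.1)
  exact h.rows.inj b1 n1 (by omega)

theorem tp_ne (t : FP.TPL G v z la) : la.1 ≠ ld.1 := fun c => tp_an h t (by
  rw [orb_eq c, h.st.tf.atr, h.st.tf.k_tr]
  exact h.hd.1.2.1)

variable (hφ : PH (FT G) G.Pr φ)
include hφ

theorem und_of (hl : l ∈ G.L 1) (n : G.nk l ≠ G.nk (G.nx l)) (hx : x ∈ G.L 0)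
    (l1 : G.ρ (G.xr (G.an l)) ≤ G.ρ x) (l2 : G.ρ x < G.ρ (G.xl (G.an (G.nx l)))) :
    x.1 ∈ Ul G φ l := by
  obtain ⟨n1, n2, n3⟩ := h.rows.nx_mem hx
  exact ⟨x, hx, rfl, (h.st.und_iff hφ (h.rows.la hl) (h.rows.la hx)).1 (mem_PE.2
    ⟨h.st.bt_of hl n hx l1 l2.le, h.st.bt_of hl n n1 (by omega) (by omega), n3⟩)⟩

theorem ul_of (hl : l ∈ G.L 1) (hg : g ∈ G.L 0) (n : ¬ Chd G g) (e : (φ g).1 = l.1) :
    g.1 ∈ Ul G φ l := by
  have hF := h.st.lay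
  obtain ⟨a, q⟩ : ∃ a, l = tr a (φ g) := ⟨_, FK.eq_tr e⟩
  rw [← hφ.eqv a g (h.rows.la hg)] at q
  have m := (hF.la_tr a g).2 (h.rows.la hg)
  have lv := hφ.lev hF m
  rw [← q, hF.lf _ _ hl] at lv
  exact ⟨tr a g, (show (FT G).f (tr a g) = 0 by omega) ▸ m, rfl, q.symm,
    fun c => n (TT.chd_orb h.st c rfl)⟩

theorem ul_phi (hg : g ∈ G.L 0) (m : g.1 ∈ Ul G φ l) : (φ g).1 = l.1 ∧ ¬ Chd G g :=
  let ⟨_, _, b, c, d⟩ := m
  ⟨c ▸ hφ.fst (h.rows.la hg) b.symm, fun k => d (TT.chd_orb h.st k b)⟩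

theorem chd_phi (hg : g ∈ G.L 0) (m : Chd G g) : (φ g).1 = ld.1 := by
  obtain ⟨n, q⟩ := h.chd_iff.1 m
  obtain ⟨⟨f0, -⟩, ⟨f1, -⟩, f2, -⟩ := h.feet
  have R := h.rows
  have d1 := h.ord.2.2.2.1
  obtain ⟨n1, n2, -⟩ := R.nx_mem d1
  have l := (R.nx_mem f0).2.1
  rw [← f2.resolve_left n.symm] at l
  have o := (h.st.tf.mono d1 (h.st.pr _) n1 (h.st.pr _) (by omega)).resolve_left h.hd.1.2.2
  rw [(h.x_nk h.hd.2).2] at o
  obtain ⟨p1, -, p2⟩ := h.phi hφ f0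
  have p3 := h.st.phi_le hφ (R.la d1) (g := G.xl z) (by rwa [R.uw.lf _ _ d1]) (by omega)
  rw [hφ.fst (R.la hg) q, R.inj p1 d1 (le_antisymm p3 (p2 le_rfl))]

theorem one_f (e : Vx J) (i : J) : ∃ f, ∀ g ∈ G.L 0, g.1 = i → φ g = e → s(g, G.nx g) = f := by
  by_cases c : ∃ g ∈ G.L 0, g.1 = i ∧ φ g = e
  · obtain ⟨y, -, y1, y2⟩ := c
    exact ⟨_, fun g a b d => by rw [hφ.inj1 (h.rows.la a) (b.trans y1.symm) (d.trans y2.symm)]⟩
  · exact ⟨s(e, e), fun g a b d => (c ⟨g, a, b, d⟩).elim⟩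

/-- the strict edges under an edge of the row one -/
theorem ss1 (nc : ¬ Y.x.c) (he : e ∈ G.L 1) (nb : e.1 ≠ lb.1) {T : Set (Sym2 (Vx J))}
    (h1 : ∀ g ∈ G.L 0, g.1 ∈ E.Pn → φ g = e → ¬ Chd G g → s(g, G.nx g) ∈ T)
    (ha : e.1 = la.1 → e = la ∧ s(z, G.xl z) ∈ T) (hd : e.1 = ld.1 → e = ld ∧ s(z, G.xr z) ∈ T) :
    SST G (Pin G E) Y.x e ⊆ T := by
  refine TB.ss_row h hφ (j := 0) (S := E.Pn) (fun _ _ k => k) he h1 (fun _ c q => ?_)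
    (fun _ c q => absurd (by rw [q]; rfl) nb) (fun k => absurd k nc) fun _ c q => ?_
  · obtain ⟨a, b⟩ := ha (by rw [q]; rfl)
    rwa [tr_eq_self (q.symm.trans a), tr_zero, tr_zero]
  · obtain ⟨a, b⟩ := hd (by rw [q]; rfl)
    rwa [tr_eq_self (q.symm.trans a), tr_zero, tr_zero]

/-- the tops of the row one -/
theorem tp_row (t : FP.TPL G v z la) (hx : x ∈ G.L 0) (nx : ¬ Chd G x)
    (k : φ x = la ∨ (φ x = ld ∧ (∀ g ∈ G.L 0, g.1 ∉ Ul G φ la) ∧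
      SpanT G ld s(x, G.nx x) s(z, G.xr z))) {y : Vx J} (q : y.1 = x.1) :
    FN.Row1 G φ la ld (Ul G φ (φ x)) False y ⟨True, True, False, True⟩ := by
  intro E Y hY _ pn alt e he ro
  have R := h.rows
  have st := h.st
  have hP := st.lay.fine.pl
  obtain ⟨a1, b1, -, d1, -⟩ := h.ord
  have ad := tp_ne h t
  have nc : ¬ Y.x.c := by rw [hY]; exact id
  have cd : ¬ Chd G ld := fun c => absurd (TB.chd_even h d1 c) (by decide)
  obtain ⟨i, key, pd, nw⟩ : ∃ i, (∀ g ∈ G.L 0, g.1 ∈ E.Pn → g.1 = x.1 ∨ (g.1 = i ∧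
      i ∉ Ul G φ (φ x) ∧ (φ g).1 ∈ E.Sk ∧ ld.1 ∈ E.Ps)) ∧ Pd G E ld ∧ Nw G φ E ld := by
    rcases alt with ⟨p, s1, s2⟩ | ⟨g, g0, g1, -, p, s1, s2⟩
    · exact ⟨x.1, fun g a b => Or.inl ((p g a b).trans q), Or.inl s1,
        s2.elim (fun m => nw_sta (sta_pn (Or.inr m))) And.left⟩
    · exact ⟨g.1, fun g' a b => (p g' a b).imp (·.trans q) fun m =>
        ⟨m, g1, hφ.fst (R.la a) m ▸ s1, s2⟩, Or.inr ⟨s2, cd⟩, nw_sta (sta_pn (Or.inr s2))⟩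
  have own : ∀ g ∈ G.L 0, g.1 ∈ E.Pn → φ g = φ x → ¬ Chd G g → s(g, G.nx g) = s(x, G.nx x) :=
    fun g a b c n => by
      rcases key g a b with m | m
      · rw [hφ.inj1 (R.la a) m c]
      · exact absurd ⟨g, a, m.1, c, n⟩ m.2.1
  by_cases cb : e.1 = lb.1
  · obtain ⟨a, rfl⟩ : ∃ a, e = tr a lb := ⟨_, orb_eq cb⟩
    have eb := tp_lb h t
    refine Top.gen (gen_fanB h (st.isB_tr a h.hb.1) ?_ (vt_tr st a ?_) ?_)
    · rw [R.nx_tr a h.hb.1.1, st.tf.nk_tr, st.tf.atr, h.nkb, eb, t.1]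
    · exact eb ▸ (vt_pin h.ha.1.1 (pin_pn pn)).2
    · rw [R.nx_tr a h.hb.1.1, st.tf.atr, h.hb.2, eb]
      exact st.lay.fine.inv a _ _ t.2.2.1
  by_cases ca : e.1 = la.1
  · refine (TB.Tq.orb h hφ h.ha.1.1 ca.symm ?_).top
    obtain ⟨f, f1, f2⟩ : ∃ f ∈ PE G.Γ (Bd G la).X, ∀ g ∈ G.L 0, g.1 ∈ E.Pn → φ g = la →
        ¬ Chd G g → s(g, G.nx g) = f := by
      rcases k with k | k
      · exact ⟨_, pe_row st hφ (R.la hx) k nx, fun g a b c => own g a b (c.trans k.symm)⟩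
      · exact ⟨_, h.pe.1, fun g a _ c n => (k.2.1 g a ⟨g, a, rfl, c, n⟩).elim⟩
    exact TB.tq_free (ss1 h hφ nc a1 (ca ▸ cb) (T := {f, s(z, G.xl z)})
      (fun g a b c n => Or.inl (f2 g a b c n)) (fun _ => ⟨rfl, Or.inr rfl⟩) fun m => absurd m ad)
      (sta_pn pn) (FP.oxV hP (all_T _ _ hP) (st.bd_disc h.ha.1.1) (st.bd_st h.ha.1.1)
        (Or.inr (show G.Γ.Adj (G.an (G.nx la)) la from t.1 ▸ t.2.1.symm)) f1 h.pe.1)
  by_cases c : e.1 = ld.1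
  · refine (TB.Tq.orb h hφ h.hd.1.1 c.symm ?_).top
    have sub : ∀ T : Set (Sym2 (Vx J)), s(z, G.xr z) ∈ T → (∀ g ∈ G.L 0, g.1 ∈ E.Pn → φ g = ld →
        ¬ Chd G g → s(g, G.nx g) ∈ T) → SST G (Pin G E) Y.x ld ⊆ T := fun T m m' =>
      ss1 h hφ nc d1 (c ▸ cb) m' (fun m => absurd m.symm ad) fun _ => ⟨rfl, m⟩
    rcases k with k | k
    · have o : ∀ g ∈ G.L 0, g.1 ∈ E.Pn → φ g = ld → g.1 = i ∧ ld.1 ∈ E.Sk ∧ ld.1 ∈ E.Ps :=
        fun g a b d => (key g a b).elim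
          (fun m => absurd (k ▸ d ▸ (hφ.fst (R.la a) m).symm) ad) fun m => ⟨m.1, d ▸ m.2.2⟩
      by_cases p : ld.1 ∈ E.Sk ∧ ld.1 ∈ E.Ps
      · obtain ⟨f, hf⟩ := one_f h hφ ld i
        exact TB.tq_t2 (sub {f, s(z, G.xr z)} (Or.inr rfl)
          fun g a b d _ => Or.inl (hf g a (o g a b d).1 d)) p.1 p.2 cd
      · exact TB.tq_one (sub _ rfl fun g a b d _ => absurd (o g a b d).2 p) pd
    · exact TB.Tq.spt (spt_sp st pd nw (sub _ (Or.inr rfl)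
        fun g a b d n => Or.inl (own g a b (d.trans k.1.symm) n)) k.2.2)
  obtain ⟨e, e1, q⟩ := ro
  refine (TB.Tq.orb h hφ (R.la e1) q ?_).top
  rw [← q] at ca cb c
  have o : ∀ g ∈ G.L 0, g.1 ∈ E.Pn → φ g = e → g.1 = i ∧ e.1 ∈ E.Sk := fun g a b d =>
    (key g a b).elim (fun m => by
      have := d ▸ hφ.fst (R.la a) m
      exact (k.elim (fun r => ca (r ▸ this)) fun r => c (r.1 ▸ this)).elim)
      fun m => ⟨m.1, d ▸ m.2.2.1⟩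
  by_cases p : e.1 ∈ E.Sk
  · obtain ⟨f, hf⟩ := one_f h hφ e i
    exact TB.tq_one (ss1 h hφ nc e1 cb (T := {f}) (fun g a b d _ => hf g a (o g a b d).1 d)
      (fun m => absurd m ca) fun m => absurd m c) (Or.inl p)
  · exact Or.inl (ss1 h hφ nc e1 cb (fun g a b d _ => p (o g a b d).2)
      (fun m => absurd m ca) fun m => absurd m c)

theorem tp_cert (t : FP.TPL G v z la) (hx : x ∈ G.L 0) (nx : ¬ Chd G x)
    (k : φ x = la ∨ (φ x = ld ∧ (∀ g ∈ G.L 0, g.1 ∉ Ul G φ la) ∧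
      ∀ y ∈ G.L 0, φ y = ld → ¬ Chd G y → SpanT G ld s(y, G.nx y) s(z, G.xr z))) :
    FN.Cert G φ la ld (Ul G φ (φ x)) False := by
  obtain ⟨a1, -, -, d1, -⟩ := h.ord
  refine ⟨a1, d1, tp_ne h t, ⟨x, hx, x, hx, rfl, rfl, nx⟩, fun y a b => (ul_phi h hφ a b).2,
    fun g a b n m => ?_, fun g a b => ?_, False.elim, ?_⟩
  · have := ul_of h hφ a1 a n m
    exact k.elim (fun r => b (r ▸ this)) fun r => r.2.1 g a this
  · rcases b with b | b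
    · have := (ul_phi h hφ a b).1
      exact k.elim (fun r => Or.inl (r ▸ this)) fun r => Or.inr (r.1 ▸ this)
    · exact Or.inr (chd_phi h hφ a b)
  · rintro y - ⟨y', a, b, c, d⟩
    exact ⟨_, .c, trivial, trivial, Or.inl trivial, Or.inr rfl, c ▸ tp_row h hφ t a d
      (k.elim (fun r => Or.inl (c.trans r)) fun r =>
        Or.inr ⟨c.trans r.1, r.2.1, r.2.2 y' a (c.trans r.1) d⟩) b.symm⟩

omit h hφ in
theorem tp (cs : FN.S_CS) (cx : FN.S_CX) : FN.S_TP := by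
  intro J _ G φ v z la lb lc ld h s hφ ⟨t, ad, k⟩
  obtain ⟨D, C⟩ : ∃ D, FN.Cert G φ la ld D False := by
    by_cases c : ∃ g ∈ G.L 0, g.1 ∈ Ul G φ la
    · obtain ⟨-, -, x, a, -, b, n⟩ := c
      exact ⟨_, tp_cert h hφ t a n (Or.inl b)⟩
    have st := h.st
    obtain ⟨a1, -, -, d1, -⟩ := h.ord
    have an := tp_an h t
    rcases k with k | ⟨k, w, w1, w2, w3⟩
    · have a0 := st.tf.an_l a1 (st.pr _) an
      exact absurd ⟨_, a0, und_of h hφ a1 h.ha.1.2.2 a0 (by rw [(st.tf.xo _ an).2.1])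
        (by rwa [(h.x_nk h.ha.2).1])⟩ c
    have n : G.an (G.nx ld) ∉ G.V := fun m => h.hd.1.2.2 (by
      rw [h.hd.2, ← h.mv]
      exact st.kq v h.vV _ m w w2 w3)
    obtain ⟨x, a, -, b, n⟩ := und_of h hφ d1 h.hd.1.2.2 h.feet.2.1.1
      (by rw [(h.x_nk h.hd.2).2]) (by rwa [(st.tf.xo _ n).1])
    have D := (st.bd_disc h.hd.1.1).px
    refine ⟨_, tp_cert h hφ t a n (Or.inr ⟨b, fun g g0 m => c ⟨g, g0, m⟩, fun y y0 y1 y2 => ?_⟩)⟩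
    have m := pe_row st hφ (h.rows.la y0) y1 y2
    refine ⟨m, h.pe.2.2.2, w, Or.inl w1, _, D.ha, _, D.hb,
      show G.Γ.Adj w (G.an ld) from ad ▸ w2, w3, fun u hu => ?_⟩
    have := hu.elim (PE.ends m) (PE.ends h.pe.2.2.2)
    exact ⟨D.lo u this, D.hi u this⟩
  by_cases c : ∀ g ∈ G.L 0, g.1 ∈ D ∨ Chd G g
  · exact cs J G φ v z la lb lc ld h s hφ ⟨_, _, _, _, C, c⟩
  · push Not at c
    exact cx J G φ v z la lb lc ld h s hφ ⟨_, _, _, _, C, c⟩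

end Pool.Agent.P.MP_08fd93_co.FG
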